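import Mathlib

namespace Pool.Agent.Results.MP_8a6e71_co.NoDisjoint

/-- A signed digraph on `Fin n`: `G j i true` is a positive arc `j → i`, `G j i false` a negative one. -/
abbrev SDigraph (n : ℕ) := Fin n → Fin n → Bool → Prop

abbrev BN (n : ℕ) := (Fin n → Bool) → Fin n → Bool

/-- The signed interaction graph `G(f)`. -/
def IG {n : ℕ} (f : BN n) : SDigraph n := fun j i s =>
  ∃ x : Fin n → Bool, x j = false ∧ f x i = !s ∧ f (Function.update x j true) i = s

/-- `v 0 → v 1 → … → v k → v 0` is a cycle of `G` whose arcs have signs `s`. -/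
def IsCyc {n k : ℕ} (G : SDigraph n) (v : Fin (k + 1) → Fin n) (s : Fin (k + 1) → Bool) : Prop :=
  Function.Injective v ∧ ∀ t, G (v t) (v (t + 1)) (s t)

/-- number of negative arcs -/
def negs {k : ℕ} (s : Fin (k + 1) → Bool) : ℕ := (Finset.univ.filter fun t => s t = false).card

def Trap {n : ℕ} (f : BN n) (X : Set (Fin n → Bool)) : Prop :=
  ∀ x ∈ X, ∀ i, x i ≠ f x i → Function.update x i (!x i) ∈ X

def Attractor {n : ℕ} (f : BN n) (X : Set (Fin n → Bool)) : Prop :=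
  X.Nonempty ∧ Trap f X ∧ ∀ Y, Y ⊆ X → Y.Nonempty → Trap f Y → Y = X

def Subspace {n : ℕ} (S : Set (Fin n → Bool)) : Prop :=
  ∃ (I : Set (Fin n)) (c : Fin n → Bool), S = {x | ∀ i ∈ I, x i = c i}

/-- `[X]`, the smallest subspace containing `X`. -/
def hull {n : ℕ} (X : Set (Fin n → Bool)) : Set (Fin n → Bool) := ⋂₀ {S | Subspace S ∧ X ⊆ S}

def Separating {n : ℕ} (f : BN n) : Prop :=
  ∀ A B, Attractor f A → Attractor f B → A ≠ B → hull A ∩ hull B = ∅

def NonSeparating {n : ℕ} (G : SDigraph n) : Prop := ∃ f : BN n, G = IG f ∧ ¬ Separating f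

def enc (x : Fin 5 → Bool) : ℕ :=
  (x 0).toNat + 2 * (x 1).toNat + 4 * (x 2).toNat + 8 * (x 3).toNat + 16 * (x 4).toNat

def ff : BN 5 := fun x i => (([16776960, 1600125690, 2012116974, 859032780, 1010580540] : List ℕ).getD i 0).testBit (enc x)
def inB (x : Fin 5 → Bool) : Bool := (2095892672 : ℕ).testBit (enc x)
def rt : Fin 5 → Bool := ![false, true, true, false, false]
def zr : Fin 5 → Bool := fun _ => false
def r1 (x : Fin 5 → Bool) : ℕ := ([0, 0, 0, 0, 0, 0, 0, 1, 0, 0, 0, 5, 0, 0, 7, 6, 0, 0, 2, 3, 0, 5, 1, 2, 0, 0, 3, 4, 3, 4, 2, 0] : List ℕ).getD (enc x) 0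
def r2 (x : Fin 5 → Bool) : ℕ := ([0, 0, 0, 0, 0, 0, 0, 7, 0, 0, 0, 3, 0, 0, 1, 2, 0, 0, 6, 5, 0, 7, 7, 6, 0, 0, 5, 4, 9, 8, 6, 0] : List ℕ).getD (enc x) 0
def adj (j i : Fin 5) : Bool := (([6, 28, 18, 5, 11] : List ℕ).getD j 0).testBit i

lemma l1 : ∀ x, inB x = true → ∀ i, x i ≠ ff x i → inB (Function.update x i (!x i)) = true := by
  decide +kernel
lemma l2 : ∀ x, inB x = true → x = rt ∨ ∃ i, x i ≠ ff x i ∧ r1 (Function.update x i (!x i)) < r1 x := by
  decide +kernel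
lemma l3 : ∀ y, inB y = true → y = rt ∨ ∃ x, inB x = true ∧ r2 x < r2 y ∧
    ∃ i, x i ≠ ff x i ∧ Function.update x i (!x i) = y := by
  decide +kernel
lemma l4 : ∀ i, ∃ x, inB x = true ∧ x i = false := by decide +kernel
lemma l5 : ∀ j i s x, x j = false → ff x i = !s → ff (Function.update x j true) i = s → adj j i = true := by
  decide +kernel
lemma l6 : ∀ S T : Fin 5 → Bool, (∀ j, S j = true → ∃ i, S i = true ∧ adj j i = true) →
    (∀ j, T j = true → ∃ i, T i = true ∧ adj j i = true) → (∀ j, S j = true → T j = false) →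
    (∀ j, S j = false) ∨ ∀ j, T j = false := by
  decide +kernel

lemma attB : Attractor ff {x | inB x = true} := by
  refine ⟨⟨rt, by decide +kernel⟩, fun x hx i hi => l1 x hx i hi, ?_⟩
  rintro Y hY ⟨x, hx⟩ hT
  have a : ∀ m x, r1 x = m → x ∈ Y → rt ∈ Y := by
    intro m
    induction m using Nat.strong_induction_on with
    | _ m ih =>
      intro x hm hx
      rcases l2 x (hY hx) with rfl | ⟨i, hi, hr⟩
      · exact hx
      · exact ih _ (hm ▸ hr) _ rfl (hT x hx i hi)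
  have b : ∀ m y, r2 y = m → inB y = true → y ∈ Y := by
    intro m
    induction m using Nat.strong_induction_on with
    | _ m ih =>
      intro y hm hy
      rcases l3 y hy with rfl | ⟨z, hz, hr, i, hi, rfl⟩
      · exact a _ x rfl hx
      · exact hT z (ih _ (hm ▸ hr) z rfl hz) i hi
  exact Set.Subset.antisymm hY fun y hy => b _ y rfl hy

lemma attA : Attractor ff {zr} := by
  refine ⟨⟨zr, rfl⟩, ?_, fun Y hY hne _ => (hne.subset_singleton_iff).1 hY⟩
  rintro x rfl i hi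
  exact absurd (by revert i; decide +kernel) hi

theorem result : ∃ (n : ℕ) (G : SDigraph n), 1 ≤ n ∧ NonSeparating G ∧
    ¬ ∃ (k l : ℕ) (v : Fin (k + 1) → Fin n) (s : Fin (k + 1) → Bool) (w : Fin (l + 1) → Fin n)
      (r : Fin (l + 1) → Bool), IsCyc G v s ∧ Even (negs s) ∧ IsCyc G w r ∧ Odd (negs r) ∧
      Disjoint (Set.range v) (Set.range w) := by
  classical
  refine ⟨5, IG ff, by norm_num, ⟨ff, rfl, fun h => ?_⟩, ?_⟩
  · have hne : ({zr} : Set (Fin 5 → Bool)) ≠ {x | inB x = true} := by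
      intro e
      have : zr ∈ {x | inB x = true} := e ▸ rfl
      exact absurd this (by decide +kernel)
    have : zr ∈ hull {zr} ∩ hull {x | inB x = true} := by
      refine ⟨fun S hS => hS.2 rfl, ?_⟩
      rintro S ⟨⟨I, c, rfl⟩, hS⟩ i hi
      obtain ⟨x, hx, hxi⟩ := l4 i
      rw [← hS hx i hi, hxi]; rfl
    rw [h _ _ attA attB hne] at this
    exact this
  · rintro ⟨k, l, v, s, w, r, ⟨-, hv⟩, -, ⟨-, hw⟩, -, hd⟩
    have key : ∀ (k : ℕ) (v : Fin (k + 1) → Fin 5) (s : Fin (k + 1) → Bool),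
        (∀ t, IG ff (v t) (v (t + 1)) (s t)) → ∀ j, decide (j ∈ Set.range v) = true →
        ∃ i, decide (i ∈ Set.range v) = true ∧ adj j i = true := by
      intro k v s hv j hj
      obtain ⟨t, rfl⟩ := of_decide_eq_true hj
      obtain ⟨x, a, b, c⟩ := hv t
      exact ⟨v (t + 1), decide_eq_true ⟨_, rfl⟩, l5 _ _ _ x a b c⟩
    rcases l6 _ _ (key k v s hv) (key l w r hw) (fun j hj => decide_eq_false
      (Set.disjoint_left.1 hd (of_decide_eq_true hj))) with h | h
    · exact of_decide_eq_false (h (v 0)) ⟨0, rfl⟩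
    · exact of_decide_eq_false (h (w 0)) ⟨0, rfl⟩

end Pool.Agent.Results.MP_8a6e71_co.NoDisjoint
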